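import Pool.Agent.H14.F14.Tools

set_option autoImplicit false
set_option linter.unusedSectionVars false
set_option linter.unusedVariables false

noncomputable section

open Classical

namespace Pool.Agent.H14.F14

open Pool.Agent.H32.F14

section
variable {V D : Type} [Fintype V] [Fintype D]

theorem mem_dartsOn (G : DG V D) (K : Finset V) (d : D) : d ∈ G.dartsOn K ↔ G.att d ∈ K := by
  simp [DG.dartsOn]

theorem card_dartsOn (G : DG V D) (Q : Finset V) : (G.dartsOn Q).card = ∑ v ∈ Q, G.deg v := by
  rw [Finset.card_eq_sum_card_fiberwise (f := fun b => G.att b) (t := Q)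
    (fun b hb => (mem_dartsOn G Q b).1 hb)]
  apply Finset.sum_congr rfl
  intro v hv
  unfold DG.deg
  congr 1
  ext b
  rw [Finset.mem_filter, mem_dartsOn, mem_darts]
  constructor
  · rintro ⟨_, h⟩; exact h
  · intro h; exact ⟨by rw [h]; exact hv, h⟩

theorem card_dartsOn5 (G : DG V D) (Q : Finset V) (h : ∀ v ∈ Q, G.deg v = 5) :
    (G.dartsOn Q).card = 5 * Q.card := by
  rw [card_dartsOn, Finset.sum_congr rfl h, Finset.sum_const, smul_eq_mul, mul_comm]

theorem inv_inj (G : DG V D) : Function.Injective G.inv := by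
  intro a b h
  rw [← G.inv_inv a, ← G.inv_inv b, h]

/-- neighbours of `Q` in `Y` -/
def nb (G : DG V D) (Q Y : Finset V) : Finset V :=
  Y.filter (fun c => ∃ d, G.att d ∈ Q ∧ G.att (G.inv d) = c)

theorem mem_nb (G : DG V D) (Q Y : Finset V) (c : V) :
    c ∈ nb G Q Y ↔ c ∈ Y ∧ ∃ d, G.att d ∈ Q ∧ G.att (G.inv d) = c := by
  simp [nb]

theorem nb_mono (G : DG V D) (Q Q' Y : Finset V) (h : Q ⊆ Q') : nb G Q Y ⊆ nb G Q' Y := by
  intro c hc
  rw [mem_nb] at hc ⊢
  obtain ⟨h1, d, h2, h3⟩ := hc
  exact ⟨h1, d, h h2, h3⟩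

theorem eN_pos_of_mem_nb (G : DG V D) (Q Y : Finset V) (c : V) (h : c ∈ nb G Q Y) :
    1 ≤ eN G Q c := by
  rw [mem_nb] at h
  obtain ⟨_, d, h2, h3⟩ := h
  unfold eN
  apply Finset.card_pos.2
  exact ⟨d, by simp [h2, h3]⟩

/-- sets of 5-vertices all whose darts go to 5-vertices in `N` -/
theorem card_le_nb (G : DG V D) (Q N : Finset V) (hQ : ∀ v ∈ Q, G.deg v = 5)
    (hN : ∀ v ∈ N, G.deg v = 5) (h : ∀ d, G.att d ∈ Q → G.att (G.inv d) ∈ N) :
    Q.card ≤ N.card := by
  have h1 : (G.dartsOn Q).card ≤ (G.dartsOn N).card := by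
    apply Finset.card_le_card_of_injOn G.inv
    · intro d hd
      have := (mem_dartsOn G Q d).1 hd
      exact (mem_dartsOn G N _).2 (h d this)
    · exact (inv_inj G).injOn
  rw [card_dartsOn5 G Q hQ, card_dartsOn5 G N hN] at h1
  omega

theorem closed_of_card_eq (G : DG V D) (Q N : Finset V) (hQ : ∀ v ∈ Q, G.deg v = 5)
    (hN : ∀ v ∈ N, G.deg v = 5) (h : ∀ d, G.att d ∈ Q → G.att (G.inv d) ∈ N)
    (hc : Q.card = N.card) : ∀ d, G.att d ∈ N → G.att (G.inv d) ∈ Q := by
  have h2 : (G.dartsOn Q).image G.inv ⊆ G.dartsOn N := by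
    intro d hd
    rw [Finset.mem_image] at hd
    obtain ⟨d', hd', rfl⟩ := hd
    exact (mem_dartsOn G N _).2 (h d' ((mem_dartsOn G Q d').1 hd'))
  have h3 : (G.dartsOn Q).image G.inv = G.dartsOn N := by
    apply Finset.eq_of_subset_of_card_le h2
    rw [Finset.card_image_of_injective _ (inv_inj G), card_dartsOn5 G Q hQ, card_dartsOn5 G N hN,
      hc]
  intro d hd
  have h4 : d ∈ G.dartsOn N := (mem_dartsOn G N d).2 hd
  rw [← h3, Finset.mem_image] at h4
  obtain ⟨d', hd', rfl⟩ := h4
  rw [G.inv_inv]
  exact (mem_dartsOn G Q d').1 hd'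

/-- (a) : sets all whose darts go to `Y` have many neighbours -/
theorem nb_ge (hA1 : StmtA1) (hC : StmtC) (G : DG V D) (hG : MinCex G) (X Y : Finset V)
    (hXY : Disjoint X Y) (hX : ∀ x ∈ X, G.deg x = 5) (hY : ∀ y ∈ Y, G.deg y = 5) (hI : G.Ind Y)
    (y : V) (hyX : y ∈ X) (Q : Finset V) (hQ : Q ⊆ X) (hyQ : y ∉ Q) (hne : Q.Nonempty)
    (hd : ∀ d, G.att d ∈ Q → G.att (G.inv d) ∈ Y) : Q.card + 2 ≤ (nb G Q Y).card := by
  have hN : ∀ v ∈ nb G Q Y, G.deg v = 5 := fun v hv => hY v ((mem_nb G Q Y v).1 hv).1
  have hQ5 : ∀ v ∈ Q, G.deg v = 5 := fun v hv => hX v (hQ hv)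
  have hdN : ∀ d, G.att d ∈ Q → G.att (G.inv d) ∈ nb G Q Y := by
    intro d h; rw [mem_nb]; exact ⟨hd d h, d, h, rfl⟩
  have h1 := card_le_nb G Q (nb G Q Y) hQ5 hN hdN
  have hnbY : nb G Q Y ⊆ Y := fun v hv => ((mem_nb G Q Y v).1 hv).1
  have hdis : Disjoint Q (nb G Q Y) :=
    Finset.disjoint_of_subset_left hQ (Finset.disjoint_of_subset_right hnbY hXY)
  by_contra hlt
  have h2 : (nb G Q Y).card = Q.card ∨ (nb G Q Y).card = Q.card + 1 := by omega
  rcases h2 with h2 | h2
  · have h3 := closed_of_card_eq G Q (nb G Q Y) hQ5 hN hdN h2.symm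
    have h4 : (G.bdry (Q ∪ nb G Q Y)).Nonempty := by
      apply hA1 V D G hG
      · obtain ⟨q, hq⟩ := hne
        exact ⟨q, Finset.mem_union_left _ hq⟩
      · intro h5
        have : y ∈ Q ∪ nb G Q Y := by rw [h5]; simp
        rw [Finset.mem_union] at this
        rcases this with h | h
        · exact hyQ h
        · exact Finset.disjoint_left.1 hXY hyX (hnbY h)
    obtain ⟨d, hd4⟩ := h4
    rw [mem_bdry, Finset.mem_union, Finset.mem_union] at hd4
    rcases hd4.1 with h | h
    · exact hd4.2 (Or.inr (hdN d h))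
    · exact hd4.2 (Or.inl (h3 d h))
  · exact hC V D G hG Q (nb G Q Y) hne hdis hQ5 hN
      (fun d hd1 hd2 => hI d (hnbY hd1) (hnbY hd2)) hdN h2

/-- a lower bound for the cut function -/
theorem sum_min_ge (G : DG V D) (Q Y S : Finset V) (u : V → ℕ) (hS : S ⊆ nb G Q Y)
    (hu : ∀ c ∈ S, 1 ≤ u c) : S.card ≤ ∑ c ∈ Y, min (u c) (eN G Q c) := by
  have h1 : S ⊆ Y := fun c hc => ((mem_nb G Q Y c).1 (hS hc)).1
  calc S.card = ∑ c ∈ S, 1 := by simp
    _ ≤ ∑ c ∈ S, min (u c) (eN G Q c) := by
        apply Finset.sum_le_sum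
        intro c hc
        exact le_min (hu c hc) (eN_pos_of_mem_nb G Q Y c (hS hc))
    _ ≤ _ := Finset.sum_le_sum_of_subset h1

/-- the same with one vertex of capacity 2 -/
theorem sum_min_ge2 (G : DG V D) (Q Y S : Finset V) (u : V → ℕ) (hS : S ⊆ nb G Q Y)
    (hu : ∀ c ∈ S, 1 ≤ u c) (p : V) (hp : p ∈ S) (hup : 2 ≤ u p) (hep : 2 ≤ eN G Q p) :
    S.card + 1 ≤ ∑ c ∈ Y, min (u c) (eN G Q c) := by
  have h1 : S ⊆ Y := fun c hc => ((mem_nb G Q Y c).1 (hS hc)).1
  calc S.card + 1 = ∑ c ∈ S.erase p, 1 + 2 := by
        rw [Finset.sum_const, smul_eq_mul, mul_one, Finset.card_erase_of_mem hp]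
        have : 0 < S.card := Finset.card_pos.2 ⟨p, hp⟩
        omega
    _ ≤ ∑ c ∈ S.erase p, min (u c) (eN G Q c) + min (u p) (eN G Q p) := by
        apply Nat.add_le_add
        · apply Finset.sum_le_sum
          intro c hc
          have hc' := Finset.mem_of_mem_erase hc
          exact le_min (hu c hc') (eN_pos_of_mem_nb G Q Y c (hS hc'))
        · exact le_min hup hep
    _ = ∑ c ∈ S, min (u c) (eN G Q c) := Finset.sum_erase_add _ _ hp
    _ ≤ _ := Finset.sum_le_sum_of_subset h1

/-- counting at a vertex of `K` : inner darts and boundary darts -/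
theorem count_at (G : DG V D) (K : Finset V) (FI : Finset D) (F : D → Bool) (ε : Bool)
    (hin : ∀ b ∈ FI, G.att (G.inv b) ∈ K) (v : V) :
    ((G.darts v).filter (fun d => d ∈ FI ∨ (d ∈ G.bdry K ∧ F d = ε))).card =
      (FI.filter (fun b => G.att b = v)).card +
        (((G.bdry K).filter (fun b => F b = ε)).filter (fun b => G.att b = v)).card := by
  rw [← Finset.card_union_of_disjoint]
  · congr 1
    ext b
    simp only [Finset.mem_filter, Finset.mem_union, mem_darts]
    tauto
  · rw [Finset.disjoint_left]
    intro b hb hb2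
    rw [Finset.mem_filter] at hb hb2
    have h1 := hb2.1
    rw [Finset.mem_filter, mem_bdry] at h1
    exact h1.1.2 (hin b hb.1)

end

theorem sum_ind2 {V : Type} (Q S : Finset V) :
    ∑ v ∈ Q, (if v ∈ S then 1 else 0) = (Q ∩ S).card := by
  rw [Finset.sum_ite_mem, Finset.sum_const, smul_eq_mul, mul_one]

theorem sum_ind {V : Type} (Y S : Finset V) (h : S ⊆ Y) :
    ∑ v ∈ Y, (if v ∈ S then 1 else 0) = S.card := by
  rw [sum_ind2, Finset.inter_eq_right.2 h]

theorem stmtK (hGad : StmtGadget) (hA1 : StmtA1) (hA7 : StmtA7) (hC : StmtC) (hBM : StmtBM) :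
    StmtK := by
  intro V D _ _ G hG
  suffices hmain : ∀ n, ∀ X Y : Finset V, X.card = n → Disjoint X Y → (∀ x ∈ X, G.deg x = 5) →
      (∀ y ∈ Y, G.deg y = 5) → G.Ind Y → (∃ f, G.att f ∈ X ∧ G.att (G.inv f) ∉ Y ∧
      ∀ d, G.att d ∈ X → d ≠ f → G.att (G.inv d) ∈ Y) → Y.card = X.card + 1 → False by
    intro X Y
    exact hmain X.card X Y rfl
  intro n
  induction n using Nat.strong_induction_on with
  | _ n IH =>
  intro X Y hn hXY hX hY hI ⟨f, hfX, hfY, hf⟩ hcard
  set y := G.att f with hy
  have hyY : y ∉ Y := fun h => Finset.disjoint_left.1 hXY hfX h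
  have hfinvX : G.att (G.inv f) ∉ X := by
    intro h
    have h1 := hf (G.inv f) h (G.inv_ne f)
    rw [G.inv_inv] at h1
    exact hyY h1
  set K : Finset V := X ∪ Y with hK
  have hmK : ∀ v, v ∈ K ↔ v ∈ X ∨ v ∈ Y := fun v => by simp [hK]
  have hfB : f ∈ G.bdry K := by
    rw [mem_bdry, hmK, hmK]
    exact ⟨Or.inl hfX, fun h => h.elim hfinvX hfY⟩
  -- boundary darts at Y
  let BY : Finset D := Finset.univ.filter (fun d => G.att d ∈ Y ∧ G.att (G.inv d) ∉ X)
  have hmBY : ∀ d, d ∈ BY ↔ G.att d ∈ Y ∧ G.att (G.inv d) ∉ X := fun d => by simp [BY]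
  clear_value BY
  have hB : G.bdry K = insert f BY := by
    ext d
    rw [mem_bdry, Finset.mem_insert, hmBY, hmK, hmK]
    constructor
    · rintro ⟨h1 | h1, h2⟩
      · left
        by_contra h3
        exact h2 (Or.inr (hf d h1 h3))
      · right
        exact ⟨h1, fun h => h2 (Or.inl h)⟩
    · rintro (h | ⟨h1, h2⟩)
      · subst h
        exact ⟨Or.inl hfX, fun h => h.elim hfinvX hfY⟩
      · exact ⟨Or.inr h1, fun h => h.elim h2 (hI d h1)⟩
  have hfBY : f ∉ BY := fun h => hyY ((hmBY f).1 h).1
  -- darts from Y to X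
  have hYX : (Finset.univ.filter (fun d => G.att d ∈ Y ∧ G.att (G.inv d) ∈ X)).card + 1 =
      5 * X.card := by
    have h1 : (Finset.univ.filter (fun d => G.att d ∈ Y ∧ G.att (G.inv d) ∈ X)).card =
        ((G.dartsOn X).erase f).card := by
      apply Finset.card_bij (i := fun d _ => G.inv d)
      · intro d hd
        simp only [Finset.mem_filter, Finset.mem_univ, true_and] at hd
        rw [Finset.mem_erase, mem_dartsOn]
        refine ⟨?_, hd.2⟩
        intro h
        apply hfY
        rw [← h, G.inv_inv]
        exact hd.1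
      · intro d _ d' _ h
        exact inv_inj G h
      · intro d hd
        rw [Finset.mem_erase, mem_dartsOn] at hd
        refine ⟨G.inv d, ?_, G.inv_inv d⟩
        simp only [Finset.mem_filter, Finset.mem_univ, true_and, G.inv_inv]
        exact ⟨hf d hd.2 hd.1, hd.2⟩
    rw [h1, Finset.card_erase_of_mem ((mem_dartsOn G X f).2 hfX), card_dartsOn5 G X hX]
    have : 0 < X.card := Finset.card_pos.2 ⟨y, hfX⟩
    omega
  have hBYc : BY.card = 6 := by
    have h1 : (G.dartsOn Y).card =
        (Finset.univ.filter (fun d => G.att d ∈ Y ∧ G.att (G.inv d) ∈ X)).card + BY.card := by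
      rw [← Finset.card_union_of_disjoint]
      · congr 1
        ext d
        simp only [mem_dartsOn, Finset.mem_union, Finset.mem_filter, Finset.mem_univ, true_and,
          hmBY]
        tauto
      · rw [Finset.disjoint_left]
        intro d h2 h3
        simp only [Finset.mem_filter, Finset.mem_univ, true_and, hmBY] at h2 h3
        exact h3.2 h2.2
    rw [card_dartsOn5 G Y hY] at h1
    omega
  have hBc : (G.bdry K).card = 7 := by
    rw [hB, Finset.card_insert_of_notMem hfBY, hBYc]
  have hKc : 5 < (G.dartsOn K).card := by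
    rw [card_dartsOn5 G K (fun v hv => ((hmK v).1 hv).elim (hX v) (hY v))]
    have h1 : K.card = X.card + Y.card := Finset.card_union_of_disjoint hXY
    have : 0 < X.card := Finset.card_pos.2 ⟨y, hfX⟩
    omega
  -- boundary degree of a vertex of Y
  let b : V → ℕ := fun p => (BY.filter (fun d => G.att d = p)).card
  have hbsum : ∑ p ∈ Y, b p = 6 := by
    rw [← hBYc]
    exact (Finset.card_eq_sum_card_fiberwise (f := fun d => G.att d) (t := Y)
      (fun d hd => ((hmBY d).1 hd).1)).symm
  have hbe : ∀ p ∈ Y, b p + eN G X p = 5 := by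
    intro p hp
    rw [← hY p hp]
    have h1 : eN G X p =
        ((G.darts p).filter (fun d => G.att (G.inv d) ∈ X)).card := by
      unfold eN
      apply Finset.card_bij (i := fun d _ => G.inv d)
      · intro d hd
        simp only [Finset.mem_filter, Finset.mem_univ, true_and] at hd
        rw [Finset.mem_filter, mem_darts, G.inv_inv]
        exact ⟨hd.2, hd.1⟩
      · intro d _ d' _ h
        exact inv_inj G h
      · intro d hd
        rw [Finset.mem_filter, mem_darts] at hd
        refine ⟨G.inv d, ?_, G.inv_inv d⟩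
        simp only [Finset.mem_filter, Finset.mem_univ, true_and, G.inv_inv]
        exact ⟨hd.2, hd.1⟩
    have h2 : b p = ((G.darts p).filter (fun d => ¬ G.att (G.inv d) ∈ X)).card := by
      simp only [b]
      congr 1
      ext d
      rw [Finset.mem_filter, Finset.mem_filter, hmBY, mem_darts]
      constructor
      · rintro ⟨⟨_, h⟩, h'⟩; exact ⟨h', h⟩
      · rintro ⟨h', h⟩; exact ⟨⟨by rw [h']; exact hp, h⟩, h'⟩
    rw [h1, h2, add_comm]
    exact Finset.card_filter_add_card_filter_not (fun d => G.att (G.inv d) ∈ X)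
  have hp1 : ∃ p ∈ Y, 1 ≤ b p ∧ b p ≤ 3 := by
    by_contra hno
    push Not at hno
    have h1 : ∀ p ∈ Y, 1 ≤ b p → 4 ≤ b p := fun p hp h => hno p hp h
    have h2 : ∃ p ∈ Y, 1 ≤ b p := by
      by_contra h3
      push Not at h3
      have : ∑ p ∈ Y, b p = 0 := Finset.sum_eq_zero (fun p hp => by have := h3 p hp; omega)
      omega
    obtain ⟨p, hp, hbp⟩ := h2
    have h4 := h1 p hp hbp
    have h5 : b p ≤ 5 := by have := hbe p hp; omega
    have h6 : ∑ q ∈ Y.erase p, b q + b p = 6 := by rw [Finset.sum_erase_add _ _ hp, hbsum]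
    have h7 : ∃ q ∈ Y.erase p, 1 ≤ b q := by
      by_contra h3
      push Not at h3
      have : ∑ q ∈ Y.erase p, b q = 0 := Finset.sum_eq_zero (fun q hq => by
        have := h3 q hq; omega)
      omega
    obtain ⟨q, hq, hbq⟩ := h7
    have h8 := h1 q (Finset.mem_of_mem_erase hq) hbq
    have h9 : b q ≤ ∑ q ∈ Y.erase p, b q := Finset.single_le_sum (fun _ _ => Nat.zero_le _) hq
    omega
  obtain ⟨p1, hp1Y, hb1, hb3⟩ := hp1
  obtain ⟨o, ho⟩ := Finset.card_pos.1 (show 0 < (BY.filter (fun d => G.att d = p1)).card from hb1)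
  rw [Finset.mem_filter] at ho
  obtain ⟨hoBY, hop1⟩ := ho
  have hoB : o ∈ G.bdry K := by rw [hB]; exact Finset.mem_insert_of_mem hoBY
  have hfo : f ≠ o := fun h => hfBY (h ▸ hoBY)
  obtain ⟨F, ε, j, hF, hFfo, hjB, hjf, hjo, hFj, hFother⟩ :=
    gadget7 hGad G hG K hKc hBc f o hfB hoB hfo
  have hjBY : j ∈ BY := by
    rw [hB, Finset.mem_insert] at hjB
    exact hjB.resolve_left hjf
  set pj := G.att j with hpj
  have hpjY : pj ∈ Y := ((hmBY j).1 hjBY).1
  -- neighbours
  have ha : ∀ Q ⊆ X, y ∉ Q → Q.Nonempty → Q.card + 2 ≤ (nb G Q Y).card := by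
    intro Q hQ hyQ hne
    exact nb_ge hA1 hC G hG X Y hXY hX hY hI y hfX Q hQ hyQ hne
      (fun d hd => hf d (hQ hd) (fun h => hyQ (by rw [hy, ← h]; exact hd)))
  have hy4 : 4 ≤ (nb G {y} Y).card := by
    have h1 : ((G.darts y).erase f).card = 4 := by
      rw [Finset.card_erase_of_mem ((mem_darts G y f).2 hy.symm)]
      have := hX y hfX
      unfold DG.deg at this
      omega
    rw [← h1]
    apply Finset.card_le_card_of_injOn (fun d => G.att (G.inv d))
    · intro d hd
      rw [Finset.mem_coe, Finset.mem_erase, mem_darts] at hd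
      rw [Finset.mem_coe, mem_nb]
      exact ⟨hf d (by rw [hd.2]; exact hfX) hd.1, d, by simp [hd.2], rfl⟩
    · intro d hd d' hd' h
      rw [Finset.mem_coe, Finset.mem_erase, mem_darts] at hd hd'
      exact hA7 V D G hG d d' (by rw [hd.2, hd'.2]) h
  have hall : ∀ Q ⊆ X, Q.Nonempty → Q.card + 1 ≤ (nb G Q Y).card := by
    intro Q hQ hne
    by_cases hyQ : y ∈ Q
    · by_cases hQ' : (Q.erase y).Nonempty
      · have h1 := ha (Q.erase y) ((Finset.erase_subset _ _).trans hQ) (Finset.notMem_erase _ _) hQ'
        have h2 := Finset.card_le_card (nb_mono G (Q.erase y) Q Y (Finset.erase_subset _ _))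
        rw [Finset.card_erase_of_mem hyQ] at h1
        have : 0 < Q.card := Finset.card_pos.2 hne
        omega
      · rw [Finset.not_nonempty_iff_eq_empty] at hQ'
        have h1 : Q = {y} := by
          rw [← Finset.insert_erase hyQ, hQ']
          rfl
        rw [h1, Finset.card_singleton]
        omega
    · have := ha Q hQ hyQ hne
      omega
  -- general conclusion
  have hfinal : ∀ (d u : V → ℕ), (∀ v, v ∉ X → d v = 0) → (∀ v, v ∉ Y → u v = 0) →
      (∑ v ∈ X, d v = ∑ v ∈ Y, u v) →
      (∀ Q ⊆ X, ∑ v ∈ Q, d v ≤ ∑ c ∈ Y, min (u c) (eN G Q c)) →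
      (∀ v, v ∈ X → d v + (((G.bdry K).filter (fun b => F b = ε)).filter
        (fun b => G.att b = v)).card = 1 ∨ d v + (((G.bdry K).filter (fun b => F b = ε)).filter
        (fun b => G.att b = v)).card = 4) →
      (∀ v, v ∈ Y → u v + (((G.bdry K).filter (fun b => F b = ε)).filter
        (fun b => G.att b = v)).card = 1 ∨ u v + (((G.bdry K).filter (fun b => F b = ε)).filter
        (fun b => G.att b = v)).card = 4) → False := by
    intro d u hd hu hsum H h1 h2
    obtain ⟨FI, hFI1, hFI2, hFI3, hFI4⟩ := realise hBM G X Y hXY d u hd hu hsum H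
    refine glue_set G hG K F hF ε FI hFI1 ?_ ?_
    · intro b hb
      rw [hmK]
      exact (hFI2 b hb).elim (fun h => Or.inl h.1) (fun h => Or.inr h.1)
    · intro v hv
      rw [count_at G K FI F ε (fun b hb => by
        rw [hmK]
        exact (hFI2 b hb).elim (fun h => Or.inr h.2) (fun h => Or.inl h.2)) v]
      rw [hmK] at hv
      rcases hv with hv | hv
      · rw [hFI3 v hv, hX v hv]
        have := h1 v hv
        omega
      · rw [hFI4 v hv, hY v hv]
        have := h2 v hv
        omega
  by_cases hx : F f = ε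
  · -- the boundary darts with label ε are f, o, j
    have hE : ∀ v, (((G.bdry K).filter (fun b => F b = ε)).filter (fun b => G.att b = v)).card =
        (if v = y then 1 else 0) + (if v = p1 then 1 else 0) + (if v = pj then 1 else 0) := by
      intro v
      have h1 : (G.bdry K).filter (fun b => F b = ε) = {f, o, j} := by
        ext b
        simp only [Finset.mem_filter, Finset.mem_insert, Finset.mem_singleton]
        constructor
        · rintro ⟨h2, h3⟩
          by_contra h4
          push Not at h4
          have h5 := hFother b h2 h4.1 h4.2.1 h4.2.2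
          rw [h3] at h5
          cases ε <;> simp at h5
        · rintro (h | h | h)
          · subst h; exact ⟨hfB, hx⟩
          · subst h; exact ⟨hoB, by rw [← hFfo]; exact hx⟩
          · subst h; exact ⟨hjB, hFj⟩
      rw [h1, Finset.card_filter, Finset.sum_insert (by simp [hfo, Ne.symm hjf]),
        Finset.sum_insert (by simp [Ne.symm hjo]), Finset.sum_singleton]
      rw [hop1, ← hpj, ← hy]
      simp only [eq_comm (b := v), ← add_assoc]
    have hyp1 : y ≠ p1 := fun h => hyY (h ▸ hp1Y)
    have hypj : y ≠ pj := fun h => hyY (h ▸ hpjY)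
    by_cases hpp : pj = p1
    · -- case C
      refine hfinal (fun v => (if v ∈ X then 1 else 0) + (if v = y then 2 else 0))
        (fun v => (if v ∈ Y then 1 else 0) + (if v = p1 then 1 else 0)) ?_ ?_ ?_ ?_ ?_ ?_
      · intro v hv
        have : v ≠ y := fun h => hv (h ▸ hfX)
        simp [hv, this]
      · intro v hv
        have : v ≠ p1 := fun h => hv (h ▸ hp1Y)
        simp [hv, this]
      · rw [Finset.sum_add_distrib, Finset.sum_add_distrib, sum_ind X X (Finset.Subset.refl _),
          sum_ind Y Y (Finset.Subset.refl _), Finset.sum_ite_eq', Finset.sum_ite_eq']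
        simp only [hfX, hp1Y, if_true]
        omega
      · intro Q hQ
        by_cases hne : Q.Nonempty
        · rw [Finset.sum_add_distrib, sum_ind2, Finset.sum_ite_eq',
            Finset.inter_eq_left.2 hQ]
          have hge1 := sum_min_ge G Q Y (nb G Q Y)
            (fun v => (if v ∈ Y then 1 else 0) + (if v = p1 then 1 else 0)) (Finset.Subset.refl _)
            (fun c hc => by simp [((mem_nb G Q Y c).1 hc).1])
          by_cases hyQ : y ∈ Q
          · simp only [hyQ, if_true]
            by_cases hQ1 : Q = {y}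
            · rw [← hQ1] at hy4
              have : Q.card = 1 := by rw [hQ1]; simp
              omega
            · have hcQ := hall Q hQ hne
              by_cases hc2 : Q.card + 2 ≤ (nb G Q Y).card
              · omega
              · have hc3 : (nb G Q Y).card = Q.card + 1 := by omega
                by_cases hQX : Q = X
                · -- N(X) = Y
                  have hNY : nb G Q Y = Y := by
                    apply Finset.eq_of_subset_of_card_le
                    · intro v hv; exact ((mem_nb G Q Y v).1 hv).1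
                    · rw [hc3, hQX, hcard]
                  have := sum_min_ge2 G Q Y (nb G Q Y)
                    (fun v => (if v ∈ Y then 1 else 0) + (if v = p1 then 1 else 0))
                    (Finset.Subset.refl _)
                    (fun c hc => by simp [((mem_nb G Q Y c).1 hc).1]) p1
                    (by rw [hNY]; exact hp1Y) (by simp [hp1Y])
                    (by rw [hQX]; have := hbe p1 hp1Y; omega)
                  omega
                · -- induction
                  exfalso
                  have hlt : Q.card < n := by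
                    rw [← hn]
                    exact Finset.card_lt_card (lt_of_le_of_ne hQ hQX)
                  have hnbY : nb G Q Y ⊆ Y := fun v hv => ((mem_nb G Q Y v).1 hv).1
                  refine IH Q.card hlt Q (nb G Q Y) rfl
                    (Finset.disjoint_of_subset_left hQ
                      (Finset.disjoint_of_subset_right hnbY hXY))
                    (fun x hx => hX x (hQ hx)) (fun v hv => hY v (hnbY hv))
                    (fun d h1 h2 => hI d (hnbY h1) (hnbY h2)) ?_ hc3
                  refine ⟨f, hyQ, fun h => hfY (hnbY h), ?_⟩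
                  intro d hd hdf
                  rw [mem_nb]
                  exact ⟨hf d (hQ hd) hdf, d, hd, rfl⟩
          · simp only [hyQ, if_false]
            have := ha Q hQ hyQ hne
            omega
        · rw [Finset.not_nonempty_iff_eq_empty] at hne
          rw [hne, Finset.sum_empty]
          exact Nat.zero_le _
      · intro v hv
        rw [hE v]
        have h1 : v ≠ p1 := fun h => Finset.disjoint_left.1 hXY hv (h ▸ hp1Y)
        have h2 : v ≠ pj := fun h => Finset.disjoint_left.1 hXY hv (h ▸ hpjY)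
        by_cases h3 : v = y
        · right
          rw [if_pos hv, if_pos h3, if_pos h3, if_neg h1, if_neg h2]
        · left
          rw [if_pos hv, if_neg h3, if_neg h3, if_neg h1, if_neg h2]
      · intro v hv
        rw [hE v]
        have h1 : v ≠ y := fun h => hyY (h ▸ hv)
        by_cases h3 : v = p1
        · have h4 : v = pj := by rw [h3, hpp]
          right
          rw [if_pos hv, if_pos h3, if_neg h1, if_pos h4]
        · have h4 : v ≠ pj := by rw [hpp]; exact h3
          left
          rw [if_pos hv, if_neg h3, if_neg h1, if_neg h4]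
    · -- case B
      refine hfinal (fun v => if v ∈ X.erase y then 1 else 0)
        (fun v => if v ∈ (Y.erase pj).erase p1 then 1 else 0) ?_ ?_ ?_ ?_ ?_ ?_
      · intro v hv
        have : v ∉ X.erase y := fun h => hv (Finset.mem_of_mem_erase h)
        simp only [this, if_false]
      · intro v hv
        have : v ∉ (Y.erase pj).erase p1 := fun h =>
          hv (Finset.mem_of_mem_erase (Finset.mem_of_mem_erase h))
        simp only [this, if_false]
      · rw [sum_ind X _ (Finset.erase_subset _ _), sum_ind Y _
          ((Finset.erase_subset _ _).trans (Finset.erase_subset _ _)),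
          Finset.card_erase_of_mem hfX, Finset.card_erase_of_mem
          (Finset.mem_erase.2 ⟨fun h => hpp h.symm, hp1Y⟩), Finset.card_erase_of_mem hpjY]
        omega
      · intro Q hQ
        rw [sum_ind2]
        have h1 : Q ∩ X.erase y = Q.erase y := by
          ext v
          simp only [Finset.mem_inter, Finset.mem_erase]
          constructor
          · rintro ⟨h1, h2, _⟩; exact ⟨h2, h1⟩
          · rintro ⟨h1, h2⟩; exact ⟨h2, h1, hQ h2⟩
        rw [h1]
        by_cases hne : (Q.erase y).Nonempty
        · have h2 := ha (Q.erase y) ((Finset.erase_subset _ _).trans hQ)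
            (Finset.notMem_erase _ _) hne
          have h3 := Finset.card_le_card (nb_mono G (Q.erase y) Q Y (Finset.erase_subset _ _))
          have h4 := sum_min_ge G Q Y (((nb G Q Y).erase pj).erase p1)
            (fun v => if v ∈ (Y.erase pj).erase p1 then 1 else 0)
            ((Finset.erase_subset _ _).trans (Finset.erase_subset _ _))
            (fun c hc => by
              rw [Finset.mem_erase, Finset.mem_erase, mem_nb] at hc
              have : c ∈ (Y.erase pj).erase p1 := by
                rw [Finset.mem_erase, Finset.mem_erase]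
                exact ⟨hc.1, hc.2.1, hc.2.2.1⟩
              simp only [this, if_true]
              exact le_rfl)
          have h5 := Finset.pred_card_le_card_erase (s := nb G Q Y) (a := pj)
          have h6 := Finset.pred_card_le_card_erase (s := (nb G Q Y).erase pj) (a := p1)
          omega
        · rw [Finset.not_nonempty_iff_eq_empty] at hne
          rw [hne, Finset.card_empty]
          exact Nat.zero_le _
      · intro v hv
        left
        rw [hE v]
        have h1 : v ≠ p1 := fun h => Finset.disjoint_left.1 hXY hv (h ▸ hp1Y)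
        have h2 : v ≠ pj := fun h => Finset.disjoint_left.1 hXY hv (h ▸ hpjY)
        by_cases h3 : v = y
        · have h4 : v ∉ X.erase y := by simp [h3]
          rw [if_neg h4, if_pos h3, if_neg h1, if_neg h2]
        · have h4 : v ∈ X.erase y := Finset.mem_erase.2 ⟨h3, hv⟩
          rw [if_pos h4, if_neg h3, if_neg h1, if_neg h2]
      · intro v hv
        left
        rw [hE v]
        have h1 : v ≠ y := fun h => hyY (h ▸ hv)
        by_cases h2 : v = p1
        · have h3 : v ≠ pj := by rw [h2]; exact fun h => hpp h.symm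
          have h4 : v ∉ (Y.erase pj).erase p1 := by simp [h2]
          rw [if_neg h4, if_neg h1, if_pos h2, if_neg h3]
        · by_cases h3 : v = pj
          · have h4 : v ∉ (Y.erase pj).erase p1 := by simp [h3]
            rw [if_neg h4, if_neg h1, if_neg h2, if_pos h3]
          · have h4 : v ∈ (Y.erase pj).erase p1 :=
              Finset.mem_erase.2 ⟨h2, Finset.mem_erase.2 ⟨h3, hv⟩⟩
            rw [if_pos h4, if_neg h1, if_neg h2, if_neg h3]
  · -- case A
    have hE : ∀ v, (((G.bdry K).filter (fun b => F b = ε)).filter (fun b => G.att b = v)).card =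
        (if v = pj then 1 else 0) := by
      intro v
      have h1 : (G.bdry K).filter (fun b => F b = ε) = {j} := by
        ext b
        simp only [Finset.mem_filter, Finset.mem_singleton]
        constructor
        · rintro ⟨h2, h3⟩
          by_contra h4
          by_cases h6 : b = f
          · exact hx (h6 ▸ h3)
          by_cases h7 : b = o
          · exact hx (by rw [hFfo, ← h7]; exact h3)
          have h5 := hFother b h2 h6 h7 h4
          rw [h3] at h5
          cases ε <;> simp at h5
        · intro h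
          subst h
          exact ⟨hjB, hFj⟩
      rw [h1, Finset.card_filter, Finset.sum_singleton, ← hpj]
      simp only [eq_comm (b := v)]
    refine hfinal (fun v => if v ∈ X then 1 else 0)
      (fun v => if v ∈ Y.erase pj then 1 else 0) ?_ ?_ ?_ ?_ ?_ ?_
    · intro v hv
      simp only [hv, if_false]
    · intro v hv
      have : v ∉ Y.erase pj := fun h => hv (Finset.mem_of_mem_erase h)
      simp only [this, if_false]
    · rw [sum_ind X X (Finset.Subset.refl _), sum_ind Y _ (Finset.erase_subset _ _),
        Finset.card_erase_of_mem hpjY]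
      omega
    · intro Q hQ
      rw [sum_ind2, Finset.inter_eq_left.2 hQ]
      by_cases hne : Q.Nonempty
      · have h2 := hall Q hQ hne
        have h4 := sum_min_ge G Q Y ((nb G Q Y).erase pj)
          (fun v => if v ∈ Y.erase pj then 1 else 0) (Finset.erase_subset _ _)
          (fun c hc => by
            rw [Finset.mem_erase, mem_nb] at hc
            have : c ∈ Y.erase pj := Finset.mem_erase.2 ⟨hc.1, hc.2.1⟩
            simp only [this, if_true]
            exact le_rfl)
        have h5 := Finset.pred_card_le_card_erase (s := nb G Q Y) (a := pj)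
        omega
      · rw [Finset.not_nonempty_iff_eq_empty] at hne
        rw [hne, Finset.card_empty]
        exact Nat.zero_le _
    · intro v hv
      left
      rw [hE v]
      have h2 : v ≠ pj := fun h => Finset.disjoint_left.1 hXY hv (h ▸ hpjY)
      rw [if_pos hv, if_neg h2]
    · intro v hv
      left
      rw [hE v]
      by_cases h3 : v = pj
      · have h4 : v ∉ Y.erase pj := by simp [h3]
        rw [if_neg h4, if_pos h3]
      · have h4 : v ∈ Y.erase pj := Finset.mem_erase.2 ⟨h3, hv⟩
        rw [if_pos h4, if_neg h3]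

end Pool.Agent.H14.F14
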