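import Pool.Agent.H32.F14.Base
import Pool.Agent.H42.F14.BM

set_option autoImplicit false
set_option linter.unusedSectionVars false
set_option linter.unusedVariables false

noncomputable section

open Classical

namespace Pool.Agent.H14.F14

open Pool.Agent.H32.F14

/-- one minority element in a Boolean function on `Fin 5` -/
theorem minority5 (g : Fin 5 → Bool)
    (h : (Finset.univ.filter (fun d => g d = true)).card = 1 ∨
      (Finset.univ.filter (fun d => g d = true)).card + 1 = 5) :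
    ∃ (i : Fin 5) (ε : Bool), g i = ε ∧ ∀ k, k ≠ i → g k = !ε := by
  rcases h with h | h
  · obtain ⟨i, hi⟩ := Finset.card_eq_one.1 h
    refine ⟨i, true, ?_, ?_⟩
    · have : i ∈ Finset.univ.filter (fun d => g d = true) := by rw [hi]; simp
      simpa using this
    · intro k hk
      have : k ∉ Finset.univ.filter (fun d => g d = true) := by rw [hi]; simpa using hk
      simpa using this
  · have h2 : (Finset.univ.filter (fun d => ¬ g d = true)).card = 1 := by
      have := Finset.card_filter_add_card_filter_not (s := (Finset.univ : Finset (Fin 5)))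
        (fun d => g d = true)
      simp only [Finset.card_univ, Fintype.card_fin] at this
      omega
    obtain ⟨i, hi⟩ := Finset.card_eq_one.1 h2
    refine ⟨i, false, ?_, ?_⟩
    · have : i ∈ Finset.univ.filter (fun d => ¬ g d = true) := by rw [hi]; simp
      simpa using this
    · intro k hk
      have : k ∉ Finset.univ.filter (fun d => ¬ g d = true) := by rw [hi]; simpa using hk
      simpa using this

section
variable {V D : Type} [Fintype V] [Fintype D]

/-- The gadget with a new 5-vertex on five of seven boundary darts, the other two joined. -/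
theorem gadget7 (hGad : StmtGadget) (G : DG V D) (hG : MinCex G) (K : Finset V)
    (hc : 5 < (G.dartsOn K).card) (hb : (G.bdry K).card = 7) (f o : D) (hf : f ∈ G.bdry K)
    (ho : o ∈ G.bdry K) (hfo : f ≠ o) :
    ∃ (F : D → Bool) (ε : Bool) (j : D), G.ValidOn Kᶜ F ∧ F f = F o ∧ j ∈ G.bdry K ∧ j ≠ f ∧
      j ≠ o ∧ F j = ε ∧ ∀ b ∈ G.bdry K, b ≠ f → b ≠ o → b ≠ j → F b = !ε := by
  let B' : Finset D := ((G.bdry K).erase f).erase o
  have hB' : B'.card = 5 := by
    have h1 : o ∈ (G.bdry K).erase f := Finset.mem_erase.2 ⟨fun h => hfo h.symm, ho⟩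
    rw [Finset.card_erase_of_mem h1, Finset.card_erase_of_mem hf, hb]
  have hmem : ∀ b, b ∈ B' ↔ b ≠ o ∧ b ≠ f ∧ b ∈ G.bdry K := by
    intro b; simp [B', Finset.mem_erase]
  let e : {b // b ∈ B'} ≃ Fin 5 := Finset.equivFinOfCardEq hB'
  let π : ({b // b ∈ G.bdry K} ⊕ Fin 5) → ({b // b ∈ G.bdry K} ⊕ Fin 5) := fun x =>
    match x with
    | Sum.inl b => if h1 : b.1 = f then Sum.inl ⟨o, ho⟩ else
        if h2 : b.1 = o then Sum.inl ⟨f, hf⟩ else
          Sum.inr (e ⟨b.1, (hmem _).2 ⟨h2, h1, b.2⟩⟩)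
    | Sum.inr i => Sum.inl ⟨(e.symm i).1, ((hmem _).1 (e.symm i).2).2.2⟩
  have hπf : π (Sum.inl ⟨f, hf⟩) = Sum.inl ⟨o, ho⟩ := by simp [π]
  have hπo : π (Sum.inl ⟨o, ho⟩) = Sum.inl ⟨f, hf⟩ := by simp [π, Ne.symm hfo]
  have hπb : ∀ b (h : b ∈ B'), π (Sum.inl ⟨b, ((hmem _).1 h).2.2⟩) = Sum.inr (e ⟨b, h⟩) := by
    intro b h
    have h' := (hmem b).1 h
    simp [π, h'.1, h'.2.1]
  have hπi : ∀ i, π (Sum.inr i) = Sum.inl ⟨(e.symm i).1, ((hmem _).1 (e.symm i).2).2.2⟩ := by
    intro i; rfl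
  have hcases : ∀ b (h : b ∈ G.bdry K), b = f ∨ b = o ∨ b ∈ B' := by
    intro b h
    by_cases h1 : b = f
    · exact Or.inl h1
    by_cases h2 : b = o
    · exact Or.inr (Or.inl h2)
    exact Or.inr (Or.inr ((hmem b).2 ⟨h2, h1, h⟩))
  have hππ : ∀ x, π (π x) = x := by
    intro x
    rcases x with ⟨b, hbK⟩ | i
    · rcases hcases b hbK with h | h | h
      · subst h; rw [hπf, hπo]
      · subst h; rw [hπo, hπf]
      · rw [hπb b h, hπi]; simp
    · rw [hπi, hπb _ (e.symm i).2]
      simp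
  have hπne : ∀ x, π x ≠ x := by
    intro x
    rcases x with ⟨b, hbK⟩ | i
    · rcases hcases b hbK with h | h | h
      · subst h; rw [hπf]; simp [Ne.symm hfo]
      · subst h; rw [hπo]; simp [hfo]
      · rw [hπb b h]; simp
    · rw [hπi]; simp
  obtain ⟨F, g, hF, hg, hcomp⟩ := hGad V D G hG K Unit (Fin 5) (fun _ => ())
    (fun w => by simp) (by simpa using hc) π hππ hπne
  have hg' := hg ()
  have hgg : (Finset.univ.filter (fun d => g d = true)).card = 1 ∨
      (Finset.univ.filter (fun d => g d = true)).card + 1 = 5 := by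
    simpa using hg'
  obtain ⟨i, ε, hi1, hi2⟩ := minority5 g hgg
  have hval : ∀ b (h : b ∈ B'), F b = g (e ⟨b, h⟩) := by
    intro b h
    have := hcomp (Sum.inl ⟨b, ((hmem _).1 h).2.2⟩)
    rw [hπb b h] at this
    simpa using this.symm
  have hj := (hmem _).1 (e.symm i).2
  refine ⟨F, ε, (e.symm i).1, hF, ?_, hj.2.2, hj.2.1, hj.1, ?_, ?_⟩
  · have := hcomp (Sum.inl ⟨f, hf⟩)
    rw [hπf] at this
    simpa using this.symm
  · rw [hval _ (e.symm i).2]
    simpa using hi1
  · intro b hbK h1 h2 h3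
    have h4 : b ∈ B' := (hmem b).2 ⟨h2, h1, hbK⟩
    rw [hval b h4]
    apply hi2
    intro h5
    apply h3
    rw [← h5]; simp

/-- number of darts from `Q` to `c` -/
def eN (G : DG V D) (Q : Finset V) (c : V) : ℕ :=
  (Finset.univ.filter (fun d => G.att d ∈ Q ∧ G.att (G.inv d) = c)).card

/-- Realisation of degrees by edges between `X` and `Y`. -/
theorem realise (hBM : StmtBM) (G : DG V D) (X Y : Finset V) (hXY : Disjoint X Y) (d u : V → ℕ)
    (hd : ∀ v, v ∉ X → d v = 0) (hu : ∀ v, v ∉ Y → u v = 0)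
    (hsum : ∑ v ∈ X, d v = ∑ v ∈ Y, u v)
    (H : ∀ Q ⊆ X, ∑ v ∈ Q, d v ≤ ∑ c ∈ Y, min (u c) (eN G Q c)) :
    ∃ FI : Finset D, (∀ b ∈ FI, G.inv b ∈ FI) ∧
      (∀ b ∈ FI, (G.att b ∈ X ∧ G.att (G.inv b) ∈ Y) ∨ (G.att b ∈ Y ∧ G.att (G.inv b) ∈ X)) ∧
      (∀ v ∈ X, (FI.filter (fun b => G.att b = v)).card = d v) ∧
      (∀ v ∈ Y, (FI.filter (fun b => G.att b = v)).card = u v) := by
  obtain ⟨F, hF1, hF2⟩ := hBM V V D (fun b => G.att b) (fun b => G.att (G.inv b)) d u (by
    intro Q
    have h1 : ∑ x ∈ Q, d x = ∑ x ∈ Q ∩ X, d x := by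
      symm
      apply Finset.sum_subset Finset.inter_subset_left
      intro x hx hx2
      apply hd
      intro hx3
      exact hx2 (Finset.mem_inter.2 ⟨hx, hx3⟩)
    rw [h1]
    refine (H (Q ∩ X) Finset.inter_subset_right).trans ?_
    refine (Finset.sum_le_sum (fun c _ => ?_)).trans
      (Finset.sum_le_sum_of_subset (Finset.subset_univ Y))
    apply min_le_min le_rfl
    unfold eN
    apply Finset.card_le_card
    intro b hb
    simp only [Finset.mem_filter, Finset.mem_univ, true_and, Finset.mem_inter] at hb ⊢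
    exact ⟨hb.1.1, hb.2⟩)
  -- darts of F start in X and end in Y
  have hFX : ∀ b ∈ F, G.att b ∈ X := by
    intro b hb
    by_contra hx
    have h1 := hF1 (G.att b)
    rw [hd _ hx, Finset.card_eq_zero] at h1
    have : b ∈ F.filter (fun e => G.att e = G.att b) := Finset.mem_filter.2 ⟨hb, rfl⟩
    rw [h1] at this
    simp at this
  have hFY : ∀ b ∈ F, G.att (G.inv b) ∈ Y := by
    intro b hb
    by_contra hx
    have h1 := hF2 (G.att (G.inv b))
    rw [hu _ hx, Nat.le_zero, Finset.card_eq_zero] at h1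
    have : b ∈ F.filter (fun e => G.att (G.inv e) = G.att (G.inv b)) :=
      Finset.mem_filter.2 ⟨hb, rfl⟩
    rw [h1] at this
    simp at this
  have c1 : F.card = ∑ v ∈ X, d v := by
    rw [Finset.card_eq_sum_card_fiberwise (f := fun b => G.att b) (t := X) (fun b hb => hFX b hb)]
    exact Finset.sum_congr rfl (fun x _ => hF1 x)
  have c2 : F.card = ∑ v ∈ Y, (F.filter (fun b => G.att (G.inv b) = v)).card :=
    Finset.card_eq_sum_card_fiberwise (f := fun b => G.att (G.inv b)) (t := Y)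
      (fun b hb => hFY b hb)
  have hF2' : ∀ v ∈ Y, (F.filter (fun b => G.att (G.inv b) = v)).card = u v := by
    have h3 : ∑ v ∈ Y, (F.filter (fun b => G.att (G.inv b) = v)).card = ∑ v ∈ Y, u v := by
      rw [← c2, c1, hsum]
    exact (Finset.sum_eq_sum_iff_of_le (fun v _ => hF2 v)).1 h3
  refine ⟨F ∪ F.image G.inv, ?_, ?_, ?_, ?_⟩
  · intro b hb
    rw [Finset.mem_union, Finset.mem_image] at hb ⊢
    rcases hb with hb | ⟨b', hb', rfl⟩
    · exact Or.inr ⟨b, hb, rfl⟩
    · left; rw [G.inv_inv]; exact hb'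
  · intro b hb
    rw [Finset.mem_union, Finset.mem_image] at hb
    rcases hb with hb | ⟨b', hb', rfl⟩
    · exact Or.inl ⟨hFX b hb, hFY b hb⟩
    · right; rw [G.inv_inv]; exact ⟨hFY _ hb', hFX _ hb'⟩
  · intro v hv
    rw [← hF1 v]
    congr 1
    ext b
    simp only [Finset.mem_filter, Finset.mem_union, Finset.mem_image]
    constructor
    · rintro ⟨hb | ⟨b', hb', rfl⟩, h2⟩
      · exact ⟨hb, h2⟩
      · exfalso
        have h3 := hFY _ hb'
        rw [h2] at h3
        exact (Finset.disjoint_left.1 hXY hv) h3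
    · rintro ⟨hb, h2⟩
      exact ⟨Or.inl hb, h2⟩
  · intro v hv
    rw [← hF2' v hv]
    symm
    apply Finset.card_bij (i := fun b _ => G.inv b)
    · intro b hb
      rw [Finset.mem_filter] at hb
      rw [Finset.mem_filter, Finset.mem_union, Finset.mem_image]
      exact ⟨Or.inr ⟨b, hb.1, rfl⟩, hb.2⟩
    · intro b _ b' _ h
      rw [← G.inv_inv b, ← G.inv_inv b', h]
    · intro b hb
      rw [Finset.mem_filter, Finset.mem_union, Finset.mem_image] at hb
      rcases hb with ⟨hb | ⟨b', hb', rfl⟩, h2⟩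
      · exfalso
        have h3 := hFX _ hb
        rw [h2] at h3
        exact (Finset.disjoint_left.1 hXY h3) hv
      · exact ⟨b', Finset.mem_filter.2 ⟨hb', h2⟩, rfl⟩

end

end Pool.Agent.H14.F14
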